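import Pool.Agent.Lib.MP_aa40d3_nt.OP.Gou

/-! Irreducible Lie algebras of matrices and the block test. -/

open Matrix

namespace Pool.Agent.GR.OP

variable {r : ℕ}

/-- A Lie algebra of traceless matrices without proper invariant subspace. -/
structure LieW (W : Submodule ℂ (Mt r)) : Prop where
  tr : ∀ a ∈ W, a.trace = 0
  lie : ∀ a ∈ W, ∀ b ∈ W, a * b - b * a ∈ W
  irr : ∀ U : Submodule ℂ (Fin r → ℂ), (∀ a ∈ W, ∀ v ∈ U, a *ᵥ v ∈ U) → U = ⊥ ∨ U = ⊤

/-- A nilpotent member whose top power `U * F` gives invertible blocks of `x` and of `y`. -/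
def Opp (W : Submodule ℂ (Mt r)) (x y : Mt r) : Prop :=
  ∃ E ∈ W, ∃ (d s : ℕ) (U : Matrix (Fin r) (Fin (s + 1)) ℂ) (F : Matrix (Fin (s + 1)) (Fin r) ℂ),
    E ^ (d + 2) = 0 ∧ E ^ (d + 1) = U * F ∧ (F * x * U).det ≠ 0 ∧ (F * y * U).det ≠ 0

theorem Opp.smul {W : Submodule ℂ (Mt r)} {x y : Mt r} (h : Opp W x y) {a b : ℂ} (ha : a ≠ 0)
    (hb : b ≠ 0) : Opp W (a • x) (b • y) := by
  obtain ⟨E, hE, d, s, U, F, h1, h2, h3, h4⟩ := h
  refine ⟨E, hE, d, s, U, F, h1, h2, ?_, ?_⟩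
  · rw [Matrix.mul_smul, Matrix.smul_mul, det_smul]
    exact mul_ne_zero (pow_ne_zero _ ha) h3
  · rw [Matrix.mul_smul, Matrix.smul_mul, det_smul]
    exact mul_ne_zero (pow_ne_zero _ hb) h4

theorem blk_zero {d s : ℕ} {E x : Mt r} {U : Matrix (Fin r) (Fin (s + 1)) ℂ}
    {F : Matrix (Fin (s + 1)) (Fin r) ℂ} (h1 : E ^ (d + 2) = 0) (h2 : E ^ (d + 1) = U * F)
    (h3 : (F * x * U).det ≠ 0) : F * U = 0 := by
  have h4 : U * F * (U * F) = 0 := by
    rw [← h2, ← pow_add]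
    exact pow_eq_zero_of_le (by omega) h1
  have h5 : F * x * U * (F * U) * (F * x * U) = 0 := by
    have := congrArg (fun z => F * x * z * x * U) h4
    simpa only [Matrix.mul_assoc, Matrix.mul_zero, Matrix.zero_mul] using this
  have hu := (Matrix.isUnit_iff_isUnit_det _).2 h3.isUnit
  exact hu.mul_right_eq_zero.1 (hu.mul_left_eq_zero.1 h5)

theorem Opp.not_scl {W : Submodule ℂ (Mt r)} {x y : Mt r} (h : Opp W x y) :
    ¬ Scl x ∧ ¬ Scl y := by
  obtain ⟨E, -, d, s, U, F, h1, h2, h3, h4⟩ := h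
  have h0 := blk_zero h1 h2 h3
  constructor
  · rintro ⟨c, rfl⟩
    rw [Matrix.mul_smul, Matrix.mul_one, Matrix.smul_mul, h0, smul_zero, det_zero] at h3
    exact h3 rfl
  · rintro ⟨c, rfl⟩
    rw [Matrix.mul_smul, Matrix.mul_one, Matrix.smul_mul, h0, smul_zero, det_zero] at h4
    exact h4 rfl

theorem Opp.test {W : Submodule ℂ (Mt r)} {x y : Mt r} (h : Opp W x y) :
    ∃ E ∈ W, ∃ j, 0 < j ∧ adL E ^ (j + 1) = 0 ∧ ¬ IsNilpotent (x * (adL E ^ j) y) := by
  obtain ⟨E, hE, d, s, U, F, h1, h2, h3, h4⟩ := h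
  have e : adL E = LinearMap.mulLeft ℂ E + LinearMap.mulRight ℂ (-E) :=
    LinearMap.ext fun z => by simp [adL_apply, sub_eq_add_neg]
  have hc := LinearMap.commute_mulLeft_right (R := ℂ) E (-E)
  have k1 : LinearMap.mulLeft ℂ E ^ (d + 1 + 1) = 0 := by
    rw [LinearMap.pow_mulLeft, h1, LinearMap.mulLeft_zero_eq_zero]
  have k2 : LinearMap.mulRight ℂ (-E) ^ (d + 1 + 1) = 0 := by
    rw [LinearMap.pow_mulRight, neg_pow, h1, mul_zero, LinearMap.mulRight_zero_eq_zero]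
  refine ⟨E, hE, d + 1 + (d + 1), by omega, ?_, ?_⟩
  · rw [e]
    exact hc.add_pow_eq_zero_of_add_le_succ_of_pow_eq_zero k1 k2 (by omega)
  · rintro ⟨m, hm⟩
    have e1 : (-E) ^ (d + 1) = ((-1 : ℂ) ^ (d + 1)) • (U * F) := by
      rw [← h2, ← smul_pow, neg_one_smul]
    rw [e, top_term hc k1 k2, LinearMap.pow_mulLeft, LinearMap.pow_mulRight, LinearMap.smul_apply,
      Module.End.mul_apply, LinearMap.mulRight_apply, LinearMap.mulLeft_apply, e1, h2,
      mul_smul_comm, mul_smul_comm, mul_smul_comm, mul_smul_comm, smul_smul, smul_pow,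
      smul_eq_zero, or_iff_right (pow_ne_zero _ (mul_ne_zero (Nat.cast_ne_zero.2
        (Nat.choose_pos (Nat.le_add_right _ _)).ne') (pow_ne_zero _ (by norm_num))))] at hm
    have e2 : ∀ k : ℕ, F * (x * (U * F * (y * (U * F)))) ^ k =
        (F * x * U * (F * y * U)) ^ k * F := fun k => by
      induction k with
      | zero => simp
      | succ k ih =>
        rw [pow_succ, ← Matrix.mul_assoc, ih, pow_succ]
        simp only [Matrix.mul_assoc]
    have e3 := congrArg (fun z => (z * x * U).det) (e2 m)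
    simp only [hm, Matrix.mul_zero, Matrix.zero_mul, det_zero] at e3
    rw [Matrix.mul_assoc, Matrix.mul_assoc, ← Matrix.mul_assoc F, det_mul, det_pow, det_mul] at e3
    exact mul_ne_zero (pow_ne_zero _ (mul_ne_zero h3 h4)) h3 e3.symm

end Pool.Agent.GR.OP
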