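import Pool.Agent.Lib.MP_aa40d3_nt.MG.RamL
import Pool.Agent.Lib.MP_aa40d3_nt.NS.Mon

/-! Analytic relations for the monodromy in a moving frame. -/

open Polynomial Matrix Set Filter Topology
open scoped Matrix.Norms.Operator

namespace Pool.Agent.GR.OL

variable {n r : ℕ} [NeZero r] {t : Fin n → ℂ} {A : Fin n → Mat r} {H : ℝ}
  {Ψ : ℂ × Mat r → ℂ}

/-- The relation `Ψ` evaluated at `g` in the frame `Y`. -/
noncomputable def ev (Ψ : ℂ × Mat r → ℂ) (Y : ℂ → (Mat r)ˣ) (g : Mat r) (y : ℂ) : ℂ :=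
  Ψ (y, (Y y).val * g * ((Y y)⁻¹).val)

theorem ev_diff (hΨ : Differentiable ℂ Ψ) {Y : ℂ → (Mat r)ˣ} (g : Mat r) {x : ℂ}
    (h : DifferentiableAt ℂ (fun y => (Y y).val) x) : DifferentiableAt ℂ (ev Ψ Y g) x := by
  have h1 : DifferentiableAt ℂ (fun y => ((Y y)⁻¹).val) x :=
    (h.inverse (Y x).isUnit).congr_of_eventuallyEq
      (Eventually.of_forall fun y => (Ring.inverse_unit (Y y)).symm)
  exact (hΨ _).comp x (differentiableAt_id.prodMk ((h.mul_const g).mul h1))

omit [NeZero r] in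
theorem line_freq (z : ℂ) : ∃ᶠ y in 𝓝[≠] z, y.re = z.re := by
  have h1 : Tendsto (fun s : ℝ => z + s * Complex.I) (𝓝[≠] 0) (𝓝[≠] z) := by
    refine tendsto_nhdsWithin_iff.2 ⟨tendsto_nhdsWithin_of_tendsto_nhds ?_, ?_⟩
    · have : Continuous fun s : ℝ => z + s * Complex.I := by fun_prop
      simpa using this.tendsto 0
    · filter_upwards [self_mem_nhdsWithin] with s hs
      simpa using hs
  exact h1.frequently (Eventually.of_forall fun s => by simp).frequently

omit [NeZero r] in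
theorem van_line {f : ℂ → ℂ} (hf : ∀ y : ℂ, (∀ j, (t j).re ≠ y.re) → DifferentiableAt ℂ f y)
    {z : ℂ} (hz : ∀ j, (t j).re ≠ z.re) (h : ∀ᶠ y in 𝓝 z, f y = 0) {x : ℂ} (hx : x.re = z.re) :
    f x = 0 := by
  have ho : IsOpen {y : ℂ | ∀ j, (t j).re ≠ y.re} := by
    rw [Set.ofPred_forall]
    exact isOpen_iInter_of_finite fun j => isOpen_ne_fun continuous_const Complex.continuous_re
  have hd : DifferentiableOn ℂ f {y : ℂ | ∀ j, (t j).re ≠ y.re} := fun y hy =>
    (hf y hy).differentiableWithinAt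
  have hc : Convex ℝ (Complex.reLm ⁻¹' {z.re}) := (convex_singleton _).linear_preimage _
  have hs : Complex.reLm ⁻¹' {z.re} ⊆ {y : ℂ | ∀ j, (t j).re ≠ y.re} :=
    fun y hy j e => hz j (e.trans hy)
  exact ((hd.analyticOnNhd ho).mono hs).eqOn_zero_of_preconnected_of_eventuallyEq_zero
    hc.isPreconnected (z₀ := z) rfl h (x := x) hx

omit [NeZero r] in
theorem van_conv {f : ℂ → ℂ} {V : Set ℂ} (ho : IsOpen V) (hc : Convex ℝ V)
    (hf : ∀ y ∈ V, DifferentiableAt ℂ f y) {z : ℂ} (hz : z ∈ V)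
    (h : ∀ y : ℂ, y.re = z.re → f y = 0) : ∀ y ∈ V, f y = 0 := fun _ hy =>
  (DifferentiableOn.analyticOnNhd (fun y hy => (hf y hy).differentiableWithinAt)
    ho).eqOn_zero_of_preconnected_of_frequently_eq_zero hc.isPreconnected hz
    ((line_freq z).mono h) hy

/-- The region below all singular points. -/
def Lo (t : Fin n → ℂ) : Set ℂ := {x | ∀ i, x.im < (t i).im}

/-- The region above all singular points. -/
def High (t : Fin n → ℂ) : Set ℂ := {x | ∀ i, (t i).im < x.im}

theorem low_open : IsOpen (Lo t) := by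
  rw [Lo, ofPred_forall]
  exact isOpen_iInter_of_finite fun i => isOpen_lt Complex.continuous_im continuous_const

theorem low_conv : Convex ℝ (Lo t) := by
  rw [Lo, ofPred_forall]
  exact convex_iInter fun i => convex_halfSpace_im_lt _

theorem high_open : IsOpen (High t) := by
  rw [High, ofPred_forall]
  exact isOpen_iInter_of_finite fun i => isOpen_lt continuous_const Complex.continuous_im

theorem high_conv : Convex ℝ (High t) := by
  rw [High, ofPred_forall]
  exact convex_iInter fun i => convex_halfSpace_im_gt _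

/-- The frame continued from below. -/
noncomputable def Fb (t : Fin n → ℂ) (A : Fin n → Mat r) (H : ℝ) (y : ℂ) : (Mat r)ˣ :=
  Ybot (TT t A) H (y.re, y.im)

/-- The frame continued from above. -/
noncomputable def Ft (t : Fin n → ℂ) (A : Fin n → Mat r) (H : ℝ) (y : ℂ) : (Mat r)ˣ :=
  Ytop (TT t A) H (y.re, y.im)

/-- The relation holds below all singular points. -/
def Van (Ψ : ℂ × Mat r → ℂ) (t : Fin n → ℂ) (A : Fin n → Mat r) (H : ℝ) (g : Mat r) : Prop :=
  ∀ y ∈ Lo t, ev Ψ (Fb t A H) g y = 0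

theorem van_vert (hΨ : Differentiable ℂ Ψ) (hb : InBox (pp t) H) {g : Mat r}
    (h : Van Ψ t A H g) {x : ℂ} (hx : ∀ j, (t j).re ≠ x.re) : ev Ψ (Fb t A H) g x = 0 :=
  van_line (t := t) (fun y hy => ev_diff hΨ g
      (differentiableAt_Yb A hb (x := y) fun j e => absurd e (hy j))) (z := ⟨x.re, -H⟩) hx
    (mem_of_superset (low_open.mem_nhds fun j => (abs_lt.1 (hb j).2).1) h) rfl

theorem van_iff (hΨ : Differentiable ℂ Ψ) (hb : InBox (pp t) H) {σ : ℝ}
    (hσ : ∀ j, (t j).re ≠ σ) (g : Mat r) : Van Ψ t A H g ↔ ∀ y ∈ High t, ev Ψ (Ft t A H)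
      (((Vp (TT t A) H (-H))⁻¹ * Vp (TT t A) H σ).val * g *
        (((Vp (TT t A) H (-H))⁻¹ * Vp (TT t A) H σ)⁻¹).val) y = 0 := by
  set c := (Vp (TT t A) H (-H))⁻¹ * Vp (TT t A) H σ with hc
  have e : ∀ y : ℂ, y.re = σ →
      ev Ψ (Fb t A H) g y = ev Ψ (Ft t A H) (c.val * g * (c⁻¹).val) y := by
    intro y hy
    have h1 : Fb t A H y = Ft t A H y * c := by
      rw [hc, ← hy]
      exact NS.Ybot_Vp (rectT_TT t A) hb (q := (y.re, y.im)) fun j e => hσ j (e.trans hy)
    rw [ev, ev, h1, _root_.mul_inv_rev, Units.val_mul (Ft t A H y), Units.val_mul c⁻¹]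
    simp only [mul_assoc]
  constructor
  · intro h
    refine van_conv high_open high_conv (fun y hy => ev_diff hΨ _
      (differentiableAt_Yt A hb (x := y) fun j _ => hy j)) (z := ⟨σ, H⟩)
      (fun j => (abs_lt.1 (hb j).2).2) fun y hy => ?_
    rw [← e y hy]
    exact van_vert hΨ hb h fun j e => hσ j (e.trans hy)
  · intro h
    refine van_conv low_open low_conv (fun y hy => ev_diff hΨ _
      (differentiableAt_Yb A hb (x := y) fun j _ => hy j)) (z := ⟨σ, -H⟩)
      (fun j => (abs_lt.1 (hb j).2).1) fun y hy => ?_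
    rw [e y hy]
    exact van_line (t := t) (fun y hy => ev_diff hΨ _
      (differentiableAt_Yt A hb (x := y) fun j e => absurd e (hy j))) (z := ⟨σ, H⟩) hσ
      (mem_of_superset (high_open.mem_nhds fun j => (abs_lt.1 (hb j).2).2) h) hy

theorem van_conj (hΨ : Differentiable ℂ Ψ) (ht : Function.Injective fun i => (t i).re)
    (hb : InBox (pp t) H) {γ : (Mat r)ˣ}
    (hγ : γ ∈ Subgroup.closure (Set.range (vt (TT t A) (pp t) H))) :
    ∀ g : Mat r, Van Ψ t A H (γ.val * g * (γ⁻¹).val) ↔ Van Ψ t A H g := by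
  induction hγ using Subgroup.closure_induction with
  | mem x hx =>
    obtain ⟨i, rfl⟩ := hx
    intro g
    obtain ⟨ε, hε, hval⟩ := exists_validAt ht i
    have hv : ValidAt (fun j => (pp t j).1) i ((t i).re - ε) ((t i).re + ε) :=
      hval _ _ le_rfl (by linarith) (by linarith) le_rfl
    have hlo : ∀ j, (t j).re ≠ (t i).re - ε := fun j e => by
      by_cases hj : j = i
      · exact hv.1.ne' (hj ▸ e)
      · exact hv.2.2 j hj ⟨e.ge, e.le.trans (hv.1.trans hv.2.1).le⟩
    have hhi : ∀ j, (t j).re ≠ (t i).re + ε := fun j e => by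
      by_cases hj : j = i
      · exact hv.2.1.ne (hj ▸ e)
      · exact hv.2.2 j hj ⟨(hv.1.trans hv.2.1).le.trans e.ge, e.le⟩
    rw [van_iff hΨ hb hlo, van_iff hΨ hb hhi, vt_eq (rectT_TT t A) hb hv]
    simp only [_root_.mul_inv_rev, Units.val_mul, inv_inv, mul_assoc, Units.mul_inv_cancel_left]
  | one => intro g; rw [inv_one, Units.val_one, one_mul, mul_one]
  | mul x y _ _ hx hy =>
    intro g
    rw [← hy g, ← hx (y.val * g * (y⁻¹).val), _root_.mul_inv_rev, Units.val_mul, Units.val_mul]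
    simp only [mul_assoc]
  | inv x _ hx =>
    intro g
    rw [← hx]
    simp only [inv_inv, mul_assoc, Units.mul_inv_cancel_left, Units.mul_inv, mul_one]

theorem van_lim (hΨ : Differentiable ℂ Ψ) (ht : Function.Injective fun i => (t i).re)
    (hb : InBox (pp t) H) (i : Fin n) (h : Van Ψ t A H (vt (TT t A) (pp t) H i).val) :
    Ψ (t i, NormedSpace.exp ((2 * Real.pi * Complex.I : ℂ) • A i)) = 0 := by
  have hti : Function.Injective t := fun i j hij => ht (by simp only [hij])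
  obtain ⟨ε, hε, hval⟩ := exists_validAt ht i
  have him : |(t i).im| < H := (hb i).2
  have h1 := sqLoop_tendsto hti A i
  have h2 : Tendsto (fun ρ : ℝ => t i + ρ * (-1 - Complex.I)) (𝓝[>] 0) (𝓝 (t i)) := by
    refine tendsto_nhdsWithin_of_tendsto_nhds ?_
    have : Continuous fun ρ : ℝ => t i + ρ * (-1 - Complex.I) := by fun_prop
    simpa using this.tendsto 0
  refine tendsto_nhds_unique_of_eventuallyEq
    ((hΨ.continuous.tendsto _).comp (h2.prodMk_nhds h1)) tendsto_const_nhds ?_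
  filter_upwards [Ioo_mem_nhdsGT (lt_min hε (sub_pos.2 him))] with ρ hρ
  have hρ0 := hρ.1
  have hρ1 := hρ.2.trans_le (min_le_left _ _)
  have hρ2 := hρ.2.trans_le (min_le_right _ _)
  have hv : ValidAt (fun j => (pp t j).1) i ((t i).re - ρ) ((t i).re + ρ) :=
    hval _ _ (by linarith) (by linarith) (by linarith) (by linarith)
  have l1 := le_abs_self (t i).im
  have l2 := neg_abs_le (t i).im
  have hvt := vt_eq_RL (rectT_TT t A) hb hv (y1 := (t i).im - ρ) (y2 := (t i).im + ρ)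
    (by linarith) (by show _ < (t i).im; linarith) (by show (t i).im < _; linarith) (by linarith)
  have e0 : cpt ((t i).re - ρ, (t i).im - ρ) = t i + ρ * (-1 - Complex.I) := by
    apply Complex.ext <;> simp [cpt] <;> ring
  have h3 := van_vert hΨ hb h (x := cpt ((t i).re - ρ, (t i).im - ρ)) fun j e => by
    by_cases hj : j = i
    · exact hv.1.ne' (hj ▸ e)
    · exact hv.2.2 j hj ⟨e.ge, e.le.trans (hv.1.trans hv.2.1).le⟩
  set u := Ybot (TT t A) H ((t i).re - ρ, (t i).im - ρ)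
  change Ψ (_, u.val * _ * (u⁻¹).val) = 0 at h3
  rw [hvt, Units.val_mul, Units.val_mul, RL_TT] at h3
  simp only [mul_assoc, Units.mul_inv_cancel_left, Units.mul_inv, mul_one] at h3
  rw [e0] at h3
  exact h3

/-- Two conjugates of local monodromy matrices avoid the relation in one common frame. -/
theorem van_pair (hΨ : Differentiable ℂ Ψ) (ht : Function.Injective fun i => (t i).re)
    (hb : InBox (pp t) H) {a b : Fin n}
    (ha : Ψ (t a, NormedSpace.exp ((2 * Real.pi * Complex.I : ℂ) • A a)) ≠ 0)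
    (hb' : Ψ (t b, NormedSpace.exp ((2 * Real.pi * Complex.I : ℂ) • A b)) ≠ 0) {γ δ : (Mat r)ˣ}
    (hγ : γ ∈ Subgroup.closure (Set.range (vt (TT t A) (pp t) H)))
    (hδ : δ ∈ Subgroup.closure (Set.range (vt (TT t A) (pp t) H))) :
    ∃ y ∈ Lo t, ev Ψ (Fb t A H) (γ * vt (TT t A) (pp t) H a * γ⁻¹).val y ≠ 0 ∧
      ev Ψ (Fb t A H) (δ * vt (TT t A) (pp t) H b * δ⁻¹).val y ≠ 0 := by
  by_contra hn
  have han : ∀ g, AnalyticOnNhd ℂ (ev Ψ (Fb t A H) g) (Lo t) := fun g =>
    DifferentiableOn.analyticOnNhd (fun y hy => (ev_diff hΨ g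
      (differentiableAt_Yb A hb (x := y) fun j _ => hy j)).differentiableWithinAt) low_open
  rcases (han _).eq_zero_or_eq_zero_of_mul_eq_zero (han _) (fun y hy => by
    by_contra h0
    exact hn ⟨y, hy, mul_ne_zero_iff.1 h0⟩) low_conv.isPreconnected with h | h
  · exact ha (van_lim hΨ ht hb a ((van_conj hΨ ht hb hγ _).1 h))
  · exact hb' (van_lim hΨ ht hb b ((van_conj hΨ ht hb hδ _).1 h))

end Pool.Agent.GR.OL
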