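import Pool.Agent.Lib.MP_aa40d3_nt.OL.Defs
import Pool.Agent.Lib.MP_aa40d3_nt.OP.Grp2

/-! Irreducible Lie algebras of matrices: centraliser, normaliser, nilpotence. -/

open Matrix

namespace Pool.Agent.GR.OP

variable {r : ℕ} {G : Type} [Group G] {σ : G →* Mt r} {W : Submodule ℂ (Mt r)}

attribute [local instance 100] LieRing.ofAssociativeRing in
theorem LieW.inner [NeZero r] (h : LieW W) {X : Mt r} (hX : ∀ z ∈ W, X * z - z * X ∈ W) :
    ∃ X₀ ∈ W, ∀ z ∈ W, X₀ * z - z * X₀ = X * z - z * X := by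
  let e := toLinAlgEquiv' (R := ℂ) (n := Fin r)
  let L : LieSubalgebra ℂ (Module.End ℂ (Fin r → ℂ)) :=
    { W.map e.toLinearMap with
      lie_mem' := by
        rintro _ _ ⟨a, ha, rfl⟩ ⟨b, hb, rfl⟩
        exact ⟨_, h.lie a ha b hb, by simp [LieRing.of_associative_ring_bracket]⟩ }
  have hL : ∀ a ∈ W, e a ∈ L := fun a ha => ⟨a, ha, rfl⟩
  have : LieModule.IsIrreducible ℂ L (Fin r → ℂ) := by
    refine LieModule.IsIrreducible.mk fun N hN => ?_
    have := (h.irr N.toSubmodule fun a ha v hv => N.lie_mem (x := ⟨e a, hL a ha⟩) hv).resolve_left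
      (by simpa using hN)
    simpa using this
  have : LieAlgebra.HasTrivialRadical ℂ L :=
    LieAlgebra.hasTrivialRadical_of_isIrreducible_of_isFaithful ℂ L (Fin r → ℂ) (by
      rintro ⟨_, a, ha, rfl⟩
      exact (Matrix.trace_toLin'_eq a).trans (h.tr a ha))
  have hk : ∀ z ∈ L, (LieAlgebra.ad ℂ _ (e X)) z ∈ L := by
    rintro _ ⟨a, ha, rfl⟩
    exact ⟨_, hX a ha, by simp [LieRing.of_associative_ring_bracket]⟩
  obtain ⟨⟨_, a, ha, rfl⟩, hx⟩ := LieDerivation.IsKilling.exists_eq_ad (R := ℂ) (L := L)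
    { toLinearMap := (LieAlgebra.ad ℂ _ (e X)).restrict hk
      leibniz' := fun a b => Subtype.ext (by
        change e X * (a.1 * b.1 - b.1 * a.1) - (a.1 * b.1 - b.1 * a.1) * e X =
          a.1 * (e X * b.1 - b.1 * e X) - (e X * b.1 - b.1 * e X) * a.1 -
            (b.1 * (e X * a.1 - a.1 * e X) - (e X * a.1 - a.1 * e X) * b.1)
        simp only [mul_sub, sub_mul, mul_assoc]
        abel) }
  refine ⟨a, ha, fun z hz => e.injective ?_⟩
  have := congrArg Subtype.val (congrArg (fun D : LieDerivation ℂ L L => D ⟨e z, hL z hz⟩) hx)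
  rw [map_sub, map_sub, map_mul, map_mul, map_mul, map_mul]
  rw [LieDerivation.ad_apply_apply] at this
  exact this

/-- The commutator and the kernels of the powers of `T`. -/
theorem ad_ker {T Z : Mt r} {a b : ℕ} {v : Fin r → ℂ} (hZ : (adL T ^ a) Z = 0)
    (hv : T ^ b *ᵥ v = 0) : T ^ (a + b) *ᵥ Z *ᵥ v = 0 := by
  have hc : Commute (adL T) (LinearMap.mulRight ℂ T) := LinearMap.ext fun z => by
    simp [adL_apply, sub_mul, mul_assoc]
  have e : LinearMap.mulLeft ℂ T = LinearMap.mulRight ℂ T + adL T := LinearMap.ext fun z => by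
    simp [adL_apply]
  have h1 : T ^ (a + b) * Z = ((LinearMap.mulRight ℂ T + adL T) ^ (a + b)) Z := by
    rw [← e, LinearMap.pow_mulLeft, LinearMap.mulLeft_apply]
  rw [mulVec_mulVec, h1, hc.symm.add_pow', LinearMap.sum_apply, Matrix.sum_mulVec]
  refine Finset.sum_eq_zero fun m hm => ?_
  rw [LinearMap.smul_apply, Module.End.mul_apply, LinearMap.pow_mulRight, LinearMap.mulRight_apply,
    smul_mulVec, ← mulVec_mulVec]
  have h2 := Finset.HasAntidiagonal.mem_antidiagonal.1 hm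
  rcases le_total a m.2 with k | k
  · obtain ⟨c, k⟩ := Nat.exists_eq_add_of_le' k
    rw [k, pow_add, Module.End.mul_apply, hZ, map_zero, zero_mulVec, smul_zero]
  · obtain ⟨c, k⟩ := Nat.exists_eq_add_of_le' (show b ≤ m.1 by omega)
    rw [k, pow_add, ← mulVec_mulVec, hv, mulVec_zero, mulVec_zero, smul_zero]

theorem adL_sub (T : Mt r) (c : ℂ) : adL (T - c • 1) = adL T :=
  LinearMap.ext fun z => by simp [adL_apply]

/-- If the commutator with `T` is nilpotent on the space then `T` has one eigenvalue. -/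
theorem LieW.one_eig (h : LieW W) {T : Mt r} (hT : ∀ z ∈ W, ∃ k, (adL T ^ k) z = 0) {c : ℂ}
    (hc : c ∈ spectrum ℂ T) : IsNilpotent (T - c • 1) := by
  have h1 : ∀ v, v ∈ Module.End.maxGenEigenspace (toLin' T) c ↔ ∃ k, (T - c • 1) ^ k *ᵥ v = 0 :=
    fun v => by
      rw [Module.End.mem_maxGenEigenspace]
      refine exists_congr fun k => ?_
      rw [← toLin'_apply, toLin'_pow, map_sub, map_smul, toLin'_one]
      rfl
  rcases h.irr (Module.End.maxGenEigenspace (toLin' T) c) (fun z hz v hv => by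
    obtain ⟨a, ha⟩ := hT z hz
    obtain ⟨b, hb⟩ := (h1 v).1 hv
    exact (h1 _).2 ⟨_, ad_ker (by rwa [adL_sub]) hb⟩) with e | e
  · rw [← spectrum_toLin', ← Module.End.hasEigenvalue_iff_mem_spectrum] at hc
    exact absurd (eq_bot_iff.2 ((Module.End.genEigenspace (toLin' T) c).monotone le_top |>.trans
      e.le)) hc
  · refine ⟨Module.finrank ℂ (Fin r → ℂ), Matrix.ext_iff_mulVec.2 fun v => ?_⟩
    rw [Module.End.maxGenEigenspace_eq_genEigenspace_finrank] at e
    have h2 := Module.End.mem_genEigenspace_nat.1 (e.ge (Submodule.mem_top (x := v)))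
    rw [← toLin'_apply, toLin'_pow, map_sub, map_smul, toLin'_one, zero_mulVec]
    exact h2

theorem LieW.cen [NeZero r] (h : LieW W) (z : Mt r) (hz : ∀ a ∈ W, a * z = z * a) : Scl z := by
  obtain ⟨c, hc⟩ := Module.End.exists_eigenvalue (toLin' z)
  refine ⟨c, Matrix.ext_iff_mulVec.2 fun v => ?_⟩
  have e := (h.irr (Module.End.eigenspace (toLin' z) c) fun a ha v hv => by
    rw [Module.End.mem_eigenspace_iff, toLin'_apply] at hv ⊢
    rw [mulVec_mulVec, ← hz a ha, ← mulVec_mulVec, hv, mulVec_smul]).resolve_left hc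
  rw [smul_mulVec, one_mulVec]
  exact Module.End.mem_eigenspace_iff.1 (e.ge trivial)

theorem LieW.log [NeZero r] (h : LieW W) (hi : ∀ γ, ∀ z ∈ W, AdR σ γ z ∈ W) : LogW σ W :=
  fun v hv w X hX => by
    obtain ⟨q, hq⟩ := (lg_ad hv σ hX).poly
    obtain ⟨X₀, h0, h1⟩ := h.inner (X := X) fun z hz => by
      rw [← adL_apply, hq, Polynomial.aeval_eq_sum_range, LinearMap.sum_apply]
      refine W.sum_mem fun i _ => W.smul_mem _ ?_
      rw [← map_pow]
      exact hi _ z hz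
    obtain ⟨c, hc⟩ := h.cen (X - X₀) fun a ha => by
      rw [mul_sub, sub_mul, sub_eq_sub_iff_sub_eq_sub, ← neg_sub, ← h1 a ha, neg_sub]
    exact ⟨X₀, h0, by rw [← adL_sub X c, ← hc, sub_sub_cancel]⟩

theorem LieW.nil [NeZero r] (h : LieW W) : NilW W := fun E _ k hk => by
  obtain ⟨c, hc⟩ := spectrum.nonempty_of_isAlgClosed_of_finiteDimensional ℂ E
  have h1 := h.one_eig (fun z hz => ⟨_, hk z hz⟩) hc
  have e : ∀ T : Mt r, adL T = LinearMap.mulLeft ℂ T - LinearMap.mulRight ℂ T := fun T => rfl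
  rw [← adL_sub E c, e]
  exact (LinearMap.commute_mulLeft_right _ _).isNilpotent_sub
    ((LinearMap.isNilpotent_mulLeft_iff _ _).2 h1) ((LinearMap.isNilpotent_mulRight_iff _ _).2 h1)

theorem LieW.rat (h : LieW W) (hi : ∀ γ, ∀ z ∈ W, AdR σ γ z ∈ W) (c : G) :
    ∀ μ ∈ spectrum ℂ (σ c), ∀ ν ∈ spectrum ℂ (σ c), ∀ M : ℕ, (μ / ν) ^ M ≠ 1 →
      ∃ δ ∈ AdW σ W c, δ ^ M ≠ 1 := fun μ hμ ν hν M hM => by
  by_contra hn
  push Not at hn
  let f : Module.End ℂ W := (AdR σ c).restrict (hi c)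
  let e : Module.End ℂ W ≃ₐ[ℂ] _ := LinearMap.toMatrixAlgEquiv (Module.finBasis ℂ W)
  have h1 : (f ^ M - 1) ^ Module.finrank ℂ W = 0 := e.injective (by
    rw [map_pow, map_zero, show e (f ^ M - 1) = e f ^ M - 1 from
      (map_sub e _ _).trans (by rw [map_pow, map_one])]
    refine NP.pow_of_spec fun δ hδ => hn δ ?_
    rw [AlgEquiv.spectrum_eq, ← Module.End.hasEigenvalue_iff_mem_spectrum] at hδ
    obtain ⟨z, hz⟩ := hδ.exists_hasEigenvector
    exact ⟨z, z.2, fun k => hz.2 (Subtype.ext k), congrArg Subtype.val hz.apply_eq_smul⟩)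
  have h2 : ∀ k, ∀ z : W, (adL (σ c ^ M) ^ k) z = ((f ^ M - 1) ^ k) z * (σ c ^ M) ^ k := fun k => by
    have h3 : ∀ (j : ℕ) (z : W), ((f ^ j) z).1 = AdR σ (c ^ j) z := fun j z => by
      rw [map_pow, Module.End.pow_restrict]
      rfl
    induction k with
    | zero => simp
    | succ k ih =>
      intro z
      rw [pow_succ', pow_succ' (f ^ M - 1), Module.End.mul_apply, Module.End.mul_apply, ih,
        LinearMap.sub_apply, Submodule.coe_sub, h3, AdR_apply, Module.End.one_apply, adL_apply,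
        sub_mul, pow_succ' (σ c ^ M), ← map_pow σ, mul_assoc _ (σ (c ^ M)⁻¹), ← mul_assoc (σ _⁻¹),
        rep_inv_mul, one_mul, mul_assoc, mul_assoc, pow_mul_comm']
  have h3 : ∀ x ∈ spectrum ℂ (σ c), x ^ M ∈ spectrum ℂ (σ c ^ M) := fun x hx =>
    spectrum.pow_mem_pow _ M hx
  have h4 := h.one_eig (fun z hz => ⟨_, by rw [h2 _ ⟨z, hz⟩, h1]; simp⟩) (h3 μ hμ)
  refine hM ?_
  rw [div_pow, div_eq_one_iff_eq (pow_ne_zero M (adS_ratio σ c hμ hν).1)]
  by_contra h5
  refine spectrum.mem_iff.1 (h3 ν hν) ?_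
  rw [Algebra.algebraMap_eq_smul_one, show ν ^ M • (1 : Mt r) - σ c ^ M =
    (ν ^ M - μ ^ M) • (1 : Mt r) + -(σ c ^ M - μ ^ M • 1) by module]
  exact IsNilpotent.isUnit_add_left_of_commute h4.neg
    (IsUnit.smul (Units.mk0 _ (sub_ne_zero.2 (Ne.symm h5))) isUnit_one)
    ((Commute.one_right _).smul_right _)

theorem LieW.typ2 [NeZero r] (hL : LieW W) (hW : IrW σ W) (hV : IrrR σ) : Typ2 σ W :=
  ⟨hW, hL.log hW.1, hL.nil, hL.rat hW.1, hV, hL.cen⟩

end Pool.Agent.GR.OP
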