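import Pool.Agent.Lib.MP_aa40d3_nt.OL.Fib
import Pool.Agent.Lib.MP_aa40d3_nt.OL.Van
import Pool.Agent.Lib.MP_aa40d3_nt.OL.Defs

/-! The dictionary for a bundle of Lie algebras. -/

open Polynomial Matrix Set Filter Topology
open scoped Matrix.Norms.Operator

namespace Pool.Agent.GR.OP

open NP OL

variable {n r s : ℕ}

theorem blk_diff (U : Matrix (Fin r) (Fin s) ℂ[X]) (F : Matrix (Fin s) (Fin r) ℂ[X]) :
    Differentiable ℂ fun p : ℂ × Mat r => (F.map (eval p.1) * p.2 * U.map (eval p.1)).det := by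
  have h1 : ∀ q : ℂ[X], Differentiable ℂ fun p : ℂ × Mat r => q.eval p.1 := fun q =>
    (Polynomial.differentiable q).comp differentiable_fst
  have h2 : ∀ a b, Differentiable ℂ fun p : ℂ × Mat r => p.2 a b := fun a b =>
    (LinearMap.toContinuousLinearMap (Matrix.entryLinearMap ℂ ℂ a b)).differentiable.comp
      differentiable_snd
  simp only [Matrix.det_apply', Matrix.mul_apply, Matrix.map_apply]
  refine Differentiable.fun_sum fun σ _ => Differentiable.const_mul ?_ _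
  have h3 : ∀ i j, Differentiable ℂ fun p : ℂ × Mat r =>
      ∑ a, (∑ b, (F i b).eval p.1 * p.2 b a) * (U a j).eval p.1 := fun i j =>
    Differentiable.fun_sum fun a _ =>
      (Differentiable.fun_sum fun b _ => (h1 _).mul (h2 _ _)).mul (h1 _)
  exact fun p => (HasFDerivAt.finsetProd fun i _ => (h3 (σ i) i p).hasFDerivAt).differentiableAt

theorem ev_mul {l m k : Type} [Fintype m] (P : Matrix l m ℂ[X]) (Q : Matrix m k ℂ[X]) (z : ℂ) :
    (P * Q).map (eval z) = P.map (eval z) * Q.map (eval z) := Matrix.map_mul (f := evalRingHom z)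

theorem ev_pow (P : Matrix (Fin r) (Fin r) ℂ[X]) (z : ℂ) (k : ℕ) :
    (P ^ k).map (eval z) = P.map (eval z) ^ k := map_pow (evalRingHom z).mapMatrix P k

theorem LieSub.lieW {t : Fin n → ℂ} {A : Fin n → Mat r}
    {W : Submodule ℂ[X] (Matrix (Fin r) (Fin r) ℂ[X])} (hW : LieSub t A W) {z : ℂ}
    (hz : ∀ i, z ≠ t i) : LieW (fibS W z) := by
  refine ⟨?_, ?_, fun U hU => hW.2.2.2.2 z hz U fun Φ hΦ => hU _ ⟨Φ, hΦ, rfl⟩⟩
  · rintro _ ⟨Φ, hΦ, rfl⟩
    have := AddMonoidHom.map_trace (evalRingHom z) Φ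
    rw [hW.2.1 Φ hΦ, map_zero] at this
    exact this.symm
  · rintro _ ⟨Φ, hΦ, rfl⟩ _ ⟨Ψ, hΨ, rfl⟩
    exact ⟨_, hW.2.2.1 Φ hΦ Ψ hΨ, by
      rw [Matrix.map_sub _ (fun a b => eval_sub a b z), ev_mul, ev_mul]⟩

theorem dict [NeZero r] {t : Fin n → ℂ} (ht : Function.Injective fun i => (t i).re)
    {A : Fin n → Mat r} {H : ℝ} (hH : 0 ≤ H) (hb : InBox (pp t) H)
    (hζ : ∀ a, QU (vt (TT t A) (pp t) H a).val)
    {W : Submodule ℂ[X] (Matrix (Fin r) (Fin r) ℂ[X])} (hW : LieSub t A W) {d : ℕ}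
    {Φ : Matrix (Fin r) (Fin r) ℂ[X]} (hΦ : Φ ∈ W) {U : Matrix (Fin r) (Fin (s + 1)) ℂ[X]}
    {F : Matrix (Fin (s + 1)) (Fin r) ℂ[X]} (h1 : Φ ^ (d + 2) = 0) (h2 : Φ ^ (d + 1) = U * F) :
    ∃ W₀, LieW W₀ ∧ IrW (incl (Subgroup.closure (Set.range (vt (TT t A) (pp t) H)))) W₀ ∧
      ∀ a b, OppAt U F (t a) (A a) → OppAt U F (t b) (A b) →
        ∀ γ ∈ Subgroup.closure (Set.range (vt (TT t A) (pp t) H)),
        ∀ δ ∈ Subgroup.closure (Set.range (vt (TT t A) (pp t) H)),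
          Opp W₀ (γ * vt (TT t A) (pp t) H a * γ⁻¹).val (δ * vt (TT t A) (pp t) H b * δ⁻¹).val := by
  have hx₀ : cpt (-H, -H) ∈ Lo t := fun i => (abs_lt.1 (hb i).2).1
  have hseg : ∀ x ∈ Lo t, ∀ i, t i ∉ segment ℝ (cpt (-H, -H)) x := fun x hx i hi =>
    lt_irrefl _ (low_conv.segment_subset hx₀ hx hi i)
  have hY : ∀ x ∈ Lo t, (∀ i, x ≠ t i) ∧ (T t A (cpt (-H, -H)) x).det ≠ 0 ∧
      HasDerivAt (T t A (cpt (-H, -H))) (sys t A x * T t A (cpt (-H, -H)) x) x := fun x hx =>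
    ⟨fun i h => lt_irrefl _ (h ▸ hx i),
      ((Matrix.isUnit_iff_isUnit_det _).1 (isUnit_Tr _)).ne_zero, hasDerivAt_T A (hseg x hx)⟩
  refine ⟨fibS W (cpt (-H, -H)), hW.lieW (hY _ hx₀).1, ⟨fun γ z hz => ?_, fun Z hZ hi => ?_⟩,
    fun a b ha hb' γ hγ δ hδ => ?_⟩
  · rw [AdR_apply]
    exact (car_vt hW.1 hb γ.2 z).1 hz
  · refine fibS_min hW hζ low_open hx₀ (T_self _ _ _) hY (extProp ht A hH hb)
      (fun Ψ hΨ x hx => fibS_T hW.1 (hseg x hx) _ ⟨Ψ, hΨ, rfl⟩) hZ fun γ hγ z hz => ?_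
    have := hi ⟨γ, hγ⟩ z hz
    rwa [AdR_apply] at this
  · obtain ⟨y, hy, k1, k2⟩ := van_pair (blk_diff U F) ht hb ha hb' hγ hδ
    have e : Fb t A H y = TU t A (cpt (-H, -H)) y := Units.ext (Yb_eq_T A hb hy)
    set u := Fb t A H y with hu
    have hp : ∀ k : ℕ, ((u⁻¹).val * Φ.map (eval y) * u.val) ^ k =
        (u⁻¹).val * (Φ ^ k).map (eval y) * u.val := fun k => by
      rw [ev_pow]
      exact Units.conj_pow' u _ k
    have hk : ∀ x : Mat r, F.map (eval y) * u.val * x * ((u⁻¹).val * U.map (eval y)) =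
        F.map (eval y) * (u.val * x * (u⁻¹).val) * U.map (eval y) := fun x => by
      simp only [Matrix.mul_assoc]
    refine ⟨(u⁻¹).val * Φ.map (eval y) * u.val, ?_, d, s, (u⁻¹).val * U.map (eval y),
      F.map (eval y) * u.val, ?_, ?_, ?_, ?_⟩
    · have h3 := (car_inv (car_TU hW.1 (hseg y hy)) _).1 ⟨Φ, hΦ, rfl⟩
      rwa [inv_inv, ← e] at h3
    · rw [hp, h1, Matrix.map_zero _ eval_zero, mul_zero, zero_mul]
    · rw [hp, h2, ev_mul]
      simp only [Matrix.mul_assoc]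
    · rw [hk]
      exact k1
    · rw [hk]
      exact k2

end Pool.Agent.GR.OP
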