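import Pool.Agent.Lib.MP_aa40d3_nt.OL.Stmt
import Pool.Agent.Lib.MP_aa40d3_nt.OL.Defs

/-! Constant bundles of Lie algebras. -/

open Polynomial Matrix

namespace Pool.Agent.GR.OP

variable {n r : ℕ} {t : Fin n → ℂ} {A : Fin n → Matrix (Fin r) (Fin r) ℂ}
  {g I : Submodule ℂ (Matrix (Fin r) (Fin r) ℂ)}

/-- The polynomial matrices all of whose values lie in `g`. -/
def polW (g : Submodule ℂ (Matrix (Fin r) (Fin r) ℂ)) :
    Submodule ℂ[X] (Matrix (Fin r) (Fin r) ℂ[X]) where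
  carrier := {Φ | ∀ z : ℂ, Φ.map (eval z) ∈ g}
  zero_mem' := fun z => by
    rw [Matrix.map_zero _ eval_zero]
    exact g.zero_mem
  add_mem' := fun {a b} ha hb z => by
    rw [Matrix.map_add _ fun _ _ => eval_add]
    exact g.add_mem (ha z) (hb z)
  smul_mem' := fun c a ha z => by
    rw [show (c • a).map (eval z) = eval z c • a.map (eval z) from Matrix.ext fun i j => by simp]
    exact g.smul_mem _ (ha z)

theorem ev_C (a : Matrix (Fin r) (Fin r) ℂ) (z : ℂ) : (a.map C).map (eval z) = a :=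
  Matrix.ext fun i j => by simp

theorem C_mem_polW {a : Matrix (Fin r) (Fin r) ℂ} : a.map C ∈ polW g ↔ a ∈ g :=
  ⟨fun h => ev_C a 0 ▸ h 0, fun h z => (ev_C a z).symm ▸ h⟩

theorem ev_br (Φ Ψ : Matrix (Fin r) (Fin r) ℂ[X]) (z : ℂ) : (Φ * Ψ - Ψ * Φ).map (eval z) =
    Φ.map (eval z) * Ψ.map (eval z) - Ψ.map (eval z) * Φ.map (eval z) := by
  have := map_sub (evalRingHom z).mapMatrix (Φ * Ψ) (Ψ * Φ)
  rw [map_mul, map_mul] at this
  exact this

theorem der_mem {Φ : Matrix (Fin r) (Fin r) ℂ[X]} (h : Φ ∈ polW g) : Φ.map derivative ∈ polW g :=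
  fun z => by
    rw [← Subspace.dualAnnihilator_dualCoannihilator_eq (W := g), Submodule.mem_dualCoannihilator]
    intro φ hφ
    have e : ∀ (Ψ : Matrix (Fin r) (Fin r) ℂ[X]) (y : ℂ), φ (Ψ.map (eval y)) =
        eval y (∑ i, ∑ j, φ (single i j 1) • Ψ i j) := fun Ψ y => by
      conv_lhs => rw [matrix_eq_sum_single (Ψ.map (eval y))]
      simp only [map_sum, eval_finsetSum, eval_smul, map_apply, smul_eq_mul]
      refine Finset.sum_congr rfl fun i _ => Finset.sum_congr rfl fun j _ => ?_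
      rw [mul_comm, ← smul_eq_mul, ← map_smul, smul_single, smul_eq_mul, mul_one]
    have h1 : ∑ i, ∑ j, φ (single i j 1) • Φ i j = 0 := Polynomial.funext fun y => by
      rw [← e, eval_zero]
      exact (Submodule.mem_dualAnnihilator φ).1 hφ _ (h y)
    have h2 := congrArg derivative h1
    simp only [map_sum, map_smul, map_zero] at h2
    rw [e]
    simp only [map_apply, h2, eval_zero]

/-- A subspace that is normalised by the residues gives a stable module. -/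
theorem stab_polW (hA : ∀ i, ∀ a ∈ I, A i * a - a * A i ∈ I) : Stab t A (polW I) := fun Φ hΦ => by
  refine Submodule.sub_mem _ (Submodule.smul_mem _ _ (der_mem hΦ)) fun z => ?_
  have e : (pm t A).map (eval z) = ∑ i, (∏ j ∈ Finset.univ.erase i, (z - t j)) • A i :=
    Matrix.ext fun a b => by simp [pm, Matrix.sum_apply, eval_finsetSum, eval_prod]
  rw [ev_br, e, Finset.sum_mul, Finset.mul_sum, ← Finset.sum_sub_distrib]
  refine I.sum_mem fun i _ => ?_
  rw [smul_mul_assoc, mul_smul_comm, ← smul_sub]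
  exact I.smul_mem _ (hA i _ (hΦ z))

theorem LieW.lieSub (h : LieW g) (hA : ∀ i, ∀ a ∈ g, A i * a - a * A i ∈ g)
    (hm : ∀ V ≤ polW g, Stab t A V → V = ⊥ ∨ ∀ Φ ∈ polW g, ∃ q : ℂ[X], q ≠ 0 ∧ q • Φ ∈ V) :
    LieSub t A (polW g) := by
  refine ⟨stab_polW hA, fun Φ hΦ => Polynomial.funext fun z => ?_, fun Φ hΦ Ψ hΨ z => ?_, hm,
    fun z _ U hU => h.irr U fun a ha v hv => ev_C a z ▸ hU _ (C_mem_polW.2 ha) v hv⟩
  · rw [eval_zero, ← h.tr _ (hΦ z)]
    exact AddMonoidHom.map_trace (evalRingHom z) Φ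
  · rw [ev_br]
    exact h.lie _ (hΦ z) _ (hΨ z)

/-- A subspace that is normalised by the residues is zero or everything. -/
theorem eq_of_min (hI : I ≤ g) (hA : ∀ i, ∀ a ∈ I, A i * a - a * A i ∈ I)
    (hm : ∀ V ≤ polW g, Stab t A V → V = ⊥ ∨ ∀ Φ ∈ polW g, ∃ q : ℂ[X], q ≠ 0 ∧ q • Φ ∈ V) :
    I = ⊥ ∨ I = g := by
  refine (hm (polW I) (fun Φ hΦ z => hI (hΦ z)) (stab_polW hA)).imp
    (fun e => eq_bot_iff.2 fun a ha => ?_) fun k => le_antisymm hI fun a ha => ?_
  · have h1 : a.map C = 0 := e.le (C_mem_polW.2 ha)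
    rw [← ev_C a 0, h1, Matrix.map_zero _ eval_zero]
    exact Submodule.zero_mem _
  · obtain ⟨q, h0, h1⟩ := k _ (C_mem_polW.2 ha)
    obtain ⟨z, hz⟩ : ∃ z, eval z q ≠ 0 := by
      by_contra hn
      push Not at hn
      exact h0 (Polynomial.funext fun z => (hn z).trans eval_zero.symm)
    have h2 := h1 z
    rw [show (q • a.map C).map (eval z) = eval z q • a from Matrix.ext fun i j => by simp] at h2
    exact (I.smul_mem_iff hz).1 h2

theorem norm_of_add (hI : ∀ b ∈ g, ∀ a ∈ I, b * a - a * b ∈ I)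
    (hA : ∀ i, ∃ c : ℂ, A i - c • 1 ∈ g) (i : Fin n) : ∀ a ∈ I, A i * a - a * A i ∈ I :=
  fun a ha => by
    obtain ⟨c, hc⟩ := hA i
    simpa [sub_mul, mul_sub] using hI _ hc a ha

end Pool.Agent.GR.OP
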