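import Pool.Agent.Lib.MP_aa40d3_nt.OL.Stmt
import Pool.Agent.Lib.MP_aa40d3_nt.MR.PrimA

/-! Affine changes of the variable. -/

open Polynomial Matrix

namespace Pool.Agent.GR.OP

variable {n r s : ℕ}

/-- Substitution of `c x + b`. -/
noncomputable def af (c b : ℂ) : ℂ[X] →+* ℂ[X] := compRingHom (C c * X + C b)

theorem af_apply (c b : ℂ) (q : ℂ[X]) : af c b q = q.comp (C c * X + C b) := rfl

theorem af_af {c b c' b' : ℂ} (h : c * c' = 1) (h' : c * b' + b = 0) (q : ℂ[X]) :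
    af c' b' (af c b q) = q := by
  have e : (C c * X + C b : ℂ[X]).comp (C c' * X + C b') = X := by
    rw [add_comp, mul_comp, C_comp, X_comp, C_comp, mul_add, ← mul_assoc, ← map_mul, ← map_mul, h,
      add_assoc, ← map_add, h', map_one, one_mul, map_zero, add_zero]
  rw [af_apply, af_apply, comp_assoc, e, comp_X]

theorem af_eval {l m : Type} (c b z : ℂ) (P : Matrix l m ℂ[X]) :
    (P.map (af c b)).map (eval z) = P.map (eval (c * z + b)) := Matrix.ext fun x y => by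
  rw [Matrix.map_apply, Matrix.map_apply, Matrix.map_apply, af_apply, eval_comp, eval_add, eval_mul,
    eval_C, eval_X, eval_C]

theorem map_sm (φ : ℂ[X] →+* ℂ[X]) (q : ℂ[X]) (Φ : Matrix (Fin r) (Fin r) ℂ[X]) :
    φ.mapMatrix (q • Φ) = φ q • φ.mapMatrix Φ := Matrix.ext fun x y => map_mul φ q (Φ x y)

/-- The inverse image of a module. -/
def pb (φ : ℂ[X] →+* ℂ[X]) (W : Submodule ℂ[X] (Matrix (Fin r) (Fin r) ℂ[X])) :
    Submodule ℂ[X] (Matrix (Fin r) (Fin r) ℂ[X]) where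
  carrier := {Φ | φ.mapMatrix Φ ∈ W}
  add_mem' := fun {u v} hu hv => by
    change φ.mapMatrix (u + v) ∈ W
    rw [map_add]
    exact W.add_mem hu hv
  zero_mem' := by
    change φ.mapMatrix 0 ∈ W
    rw [map_zero]
    exact W.zero_mem
  smul_mem' := fun q u hu => by
    change φ.mapMatrix (q • u) ∈ W
    rw [map_sm]
    exact W.smul_mem _ hu

theorem mem_pb {φ : ℂ[X] →+* ℂ[X]} {W : Submodule ℂ[X] (Matrix (Fin r) (Fin r) ℂ[X])}
    {Φ : Matrix (Fin r) (Fin r) ℂ[X]} : Φ ∈ pb φ W ↔ φ.mapMatrix Φ ∈ W := Iff.rfl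

theorem Stab.pb {t t' : Fin n → ℂ} {c b : ℂ} (hc : c ≠ 0) (ht : ∀ i, t i = c * t' i + b)
    {A : Fin n → Matrix (Fin r) (Fin r) ℂ} {W' : Submodule ℂ[X] (Matrix (Fin r) (Fin r) ℂ[X])}
    (hW' : Stab t' A W') : Stab t A (pb (af c b) W') := by
  intro Φ hΦ
  set M : Matrix (Fin r) (Fin r) ℂ[X] →+* Matrix (Fin r) (Fin r) ℂ[X] := (af c b).mapMatrix with hM0
  have hM : ∀ Φ x y, M Φ x y = af c b (Φ x y) := fun Φ x y => rfl
  have h2 : (C c : ℂ[X]) • M (pm t A) = (C c ^ n : ℂ[X]) • pm t' A :=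
    Matrix.ext fun x y => aff_pm ht A x y
  have h3 : ∀ Φ, (M Φ).map derivative = (C c : ℂ[X]) • M (Φ.map derivative) := fun Φ =>
    Matrix.ext fun x y => by
      rw [Matrix.map_apply, Matrix.smul_apply, hM, hM, Matrix.map_apply, af_apply, af_apply,
        derivative_comp, derivative_add, derivative_C, derivative_C_mul_X, add_zero, smul_eq_mul]
  rw [mem_pb] at hΦ ⊢
  have h1 := W'.smul_mem (C c⁻¹) (W'.smul_mem (C c ^ n) (hW' _ hΦ))
  have e : (C c ^ n : ℂ[X]) • (dl t' • (M Φ).map derivative - (pm t' A * M Φ - M Φ * pm t' A)) =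
      (C c : ℂ[X]) • M (dl t • Φ.map derivative - (pm t A * Φ - Φ * pm t A)) := by
    rw [map_sub, map_sub, map_mul, map_mul, hM0, map_sm, ← hM0, af_apply, aff_dl ht, h3, smul_sub,
      smul_sub, smul_sub, smul_sub, ← Matrix.smul_mul, ← Matrix.smul_mul (C c), ← Matrix.mul_smul,
      ← Matrix.mul_smul _ (C c), h2, smul_smul, smul_smul, smul_smul, mul_comm (C c)]
  rwa [e, smul_smul, ← map_mul, inv_mul_cancel₀ hc, map_one, one_smul] at h1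

theorem LieSub.aux {t t' : Fin n → ℂ} {A : Fin n → Matrix (Fin r) (Fin r) ℂ}
    {W : Submodule ℂ[X] (Matrix (Fin r) (Fin r) ℂ[X])} (h : LieSub t A W) (φ ψ : ℂ[X] →+* ℂ[X])
    (e1 : ∀ q, ψ (φ q) = q) (e2 : ∀ q, φ (ψ q) = q)
    (s1 : ∀ V, Stab t' A V → Stab t A (pb φ V)) (s2 : Stab t' A (pb ψ W))
    (hz : ∀ z, (∀ i, z ≠ t' i) → ∃ z', (∀ i, z' ≠ t i) ∧ ∀ Φ : Matrix (Fin r) (Fin r) ℂ[X],
      (φ.mapMatrix Φ).map (eval z) = Φ.map (eval z')) :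
    LieSub t' A (pb ψ W) ∧ ∀ Φ ∈ W, φ.mapMatrix Φ ∈ pb ψ W := by
  have m1 : ∀ Φ : Matrix (Fin r) (Fin r) ℂ[X], ψ.mapMatrix (φ.mapMatrix Φ) = Φ := fun Φ =>
    Matrix.ext fun x y => e1 _
  have m2 : ∀ Φ : Matrix (Fin r) (Fin r) ℂ[X], φ.mapMatrix (ψ.mapMatrix Φ) = Φ := fun Φ =>
    Matrix.ext fun x y => e2 _
  refine ⟨⟨s2, fun Φ hΦ => ?_, fun Φ hΦ Ψ hΨ => ?_, fun V hV hs => ?_, fun z hz' U hU => ?_⟩,
    fun Φ hΦ => by rwa [mem_pb, m1]⟩
  · have h1 := (AddMonoidHom.map_trace ψ Φ).trans (h.2.1 _ hΦ)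
    rw [← e2 Φ.trace, h1, map_zero]
  · rw [mem_pb, map_sub, map_mul, map_mul]
    exact h.2.2.1 _ hΦ _ hΨ
  · refine (h.2.2.2.1 (pb φ V) (fun Φ hΦ => ?_) (s1 V hs)).imp
      (fun k => eq_bot_iff.2 fun Φ hΦ => ?_) fun k Φ hΦ => ?_
    · have h1 := hV hΦ
      rwa [mem_pb, m1] at h1
    · have h1 : ψ.mapMatrix Φ = 0 := k.le (show _ ∈ pb φ V by rwa [mem_pb, m2])
      rw [Submodule.mem_bot, ← m2 Φ, h1, map_zero]
    · obtain ⟨q, hq, h1⟩ := k _ hΦ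
      rw [mem_pb, map_sm, m2] at h1
      exact ⟨φ q, fun e => hq (by rw [← e1 q, e, map_zero]), h1⟩
  · obtain ⟨z', h1, h2⟩ := hz z hz'
    refine h.2.2.2.2 z' h1 U fun Φ hΦ v hv => ?_
    rw [← h2]
    exact hU _ (by rwa [mem_pb, m1]) v hv

theorem LieSub.aff {t t' : Fin n → ℂ} {c b : ℂ} (hc : c ≠ 0) (ht : ∀ i, t i = c * t' i + b)
    {A : Fin n → Matrix (Fin r) (Fin r) ℂ} {W : Submodule ℂ[X] (Matrix (Fin r) (Fin r) ℂ[X])}
    (h : LieSub t A W) : ∃ W', LieSub t' A W' ∧ ∀ Φ ∈ W, (af c b).mapMatrix Φ ∈ W' := by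
  have ht' : ∀ i, t' i = c⁻¹ * t i + -(c⁻¹ * b) := fun i => by rw [ht i]; field_simp; ring
  refine ⟨_, h.aux (af c b) (af c⁻¹ (-(c⁻¹ * b))) (af_af (mul_inv_cancel₀ hc) (by field_simp; ring))
    (af_af (inv_mul_cancel₀ hc) (by ring)) (fun V hV => hV.pb hc ht) (h.1.pb (inv_ne_zero hc) ht')
    fun z hz => ⟨c * z + b, fun i e => hz i ?_, fun Φ => ?_⟩⟩
  · rw [ht i, add_left_inj] at e
    exact mul_left_cancel₀ hc e
  · rw [RingHom.mapMatrix_apply, af_eval]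

theorem OppAt.aff {U : Matrix (Fin r) (Fin s) ℂ[X]} {F : Matrix (Fin s) (Fin r) ℂ[X]}
    {c b z z' : ℂ} (hz : z = c * z' + b) {B : Matrix (Fin r) (Fin r) ℂ} (h : OppAt U F z B) :
    OppAt (U.map (af c b)) (F.map (af c b)) z' B := by
  rwa [OppAt, af_eval, af_eval, ← hz]

end Pool.Agent.GR.OP
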