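import Pool.Agent.Lib.MP_aa40d3_nt.OL.Lift
import Pool.Agent.Lib.MP_aa40d3_nt.OL.Lie

/-! The group theorem for an invariant irreducible Lie algebra. -/

namespace Pool.Agent.GR.OP

open NP GC FB

theorem group_ol (r : ℕ) [NeZero r] : ∃ k : ℕ, ∀ (n : ℕ) (Mov : Finset (Fin n))
    (L0 : List (Fin n)) (g : Fin n → GLr r) (o : Fin n) (W : Submodule ℂ (Mt r)), L0.Nodup →
    (∀ a, a ∈ L0) → (∀ a, QU (g a).val) → IrrT g → LieW W →
    IrW (incl (Subgroup.closure (Set.range g))) W →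
    (∀ a ∈ Mov, ∀ c ∈ Subgroup.closure (Set.range g), ∀ c' ∈ Subgroup.closure (Set.range g),
      Opp W (c * g o * c⁻¹).val (c' * g a * c'⁻¹).val) → o ∉ Mov → k ≤ Mov.card →
    PairH Mo (fun x => QU x.1.val) (L0.map (mkd {o} g)) →
    Finite (Subgroup.closure (Set.range g)) := by
  obtain ⟨k, hk⟩ := group_typ r
  exact ⟨k, fun n Mov L0 g o W h0 hall hq hI hL =>
    hk n Mov L0 g o W h0 hall hq hI fun _ _ _ => hL.typ2⟩

end Pool.Agent.GR.OP
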