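import Pool.Agent.Lib.MP_aa40d3_nt.OL.Stmt
import Pool.Agent.Lib.MP_aa40d3_nt.OP.An

/-! The traceless matrices as a bundle of Lie algebras. -/

open Polynomial Matrix

namespace Pool.Agent.GR.OP

variable {n r : ℕ} {t : Fin n → ℂ} {A : Fin n → Matrix (Fin r) (Fin r) ℂ}

theorem common {V ι : Type} [NormedAddCommGroup V] [NormedSpace ℂ V] (S : Finset ι)
    {f : ι → V → ℂ} (hf : ∀ j ∈ S, Differentiable ℂ (f j)) (h : ∀ j ∈ S, ∃ v, f j v ≠ 0) :
    ∃ v, ∀ j ∈ S, f j v ≠ 0 := by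
  classical
  induction S using Finset.induction_on with
  | empty => exact ⟨0, by simp⟩
  | insert a S ha ih =>
    obtain ⟨u, hu⟩ := ih (fun j hj => hf j (Finset.mem_insert_of_mem hj))
      fun j hj => h j (Finset.mem_insert_of_mem hj)
    obtain ⟨v, hv⟩ := h a (Finset.mem_insert_self a S)
    have hl : Differentiable ℂ fun s : ℂ => u + s • (v - u) := by fun_prop
    by_contra hn
    push Not at hn
    rcases AnalyticOnNhd.eq_zero_or_eq_zero_of_mul_eq_zero (U := Set.univ)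
      (f := fun s : ℂ => ∏ j ∈ S, f j (u + s • (v - u))) (g := fun s : ℂ => f a (u + s • (v - u)))
      (fun z _ => (Differentiable.fun_finsetProd fun j hj =>
        (hf j (Finset.mem_insert_of_mem hj)).comp hl).analyticAt z)
      (fun z _ => ((hf a (Finset.mem_insert_self a S)).comp hl).analyticAt z) (fun s _ => by
        obtain ⟨j, hj, e⟩ := hn (u + s • (v - u))
        rcases Finset.mem_insert.1 hj with rfl | hj
        · exact mul_eq_zero_of_right _ e
        · exact mul_eq_zero_of_left (Finset.prod_eq_zero hj e) _) isPreconnected_univ with e | e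
    · exact Finset.prod_ne_zero_iff.2 hu (by simpa using e 0 trivial)
    · exact hv (by simpa using e 1 trivial)

theorem exists_uf {ι : Type} (S : Finset ι) {x : ι → Mt r} (hx : ∀ j ∈ S, ¬ Scl (x j)) :
    ∃ u f : Fin r → ℂ, f ⬝ᵥ u = 0 ∧ ∀ j ∈ S, f ⬝ᵥ x j *ᵥ u ≠ 0 := by
  obtain ⟨p, hp⟩ := common (V := (Fin r → ℂ) × (Fin r → ℂ) × (Fin r → ℂ)) S
    (f := fun j p => ((p.2.2 ⬝ᵥ p.1) • p.2.1 - (p.2.1 ⬝ᵥ p.1) • p.2.2) ⬝ᵥ x j *ᵥ p.1)
    (fun j _ => by
      simp only [dotProduct, mulVec, Pi.sub_apply, Pi.smul_apply, smul_eq_mul]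
      fun_prop) fun j hj => by
      obtain ⟨u, h1, -⟩ := exists_vec (hx j hj) (hx j hj)
      obtain ⟨f, h2, h3, -⟩ := exists_form h1 h1
      obtain ⟨i, hi⟩ := Function.ne_iff.1 (show u ≠ 0 by rintro rfl; simp at h3)
      exact ⟨(u, f, Pi.single i 1), by simpa [h2, h3] using hi⟩
  exact ⟨p.1, _, by simp [mul_comm], hp⟩

/-- A constant matrix of rank one. -/
theorem opp_const {u f : Fin r → ℂ} (h0 : f ⬝ᵥ u = 0) :
    ∃ (U : Matrix (Fin r) (Fin 1) ℂ[X]) (F : Matrix (Fin 1) (Fin r) ℂ[X]),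
      (vecMulVec u f).map C ^ 2 = 0 ∧ (vecMulVec u f).map C = U * F ∧ ∀ z B,
        f ⬝ᵥ NormedSpace.exp ((2 * Real.pi * Complex.I : ℂ) • B) *ᵥ u ≠ 0 → OppAt U F z B := by
  refine ⟨(replicateCol _ u).map C, (replicateRow _ f).map C, ?_, ?_, fun z B h => ?_⟩
  · rw [← RingHom.mapMatrix_apply, ← map_pow, pow_two, vecMulVec_mul_vecMulVec, h0,
      zero_smul, vecMulVec_zero, map_zero]
  · ext1 i j
    simp [Matrix.mul_apply, vecMulVec_apply]
  · rw [OppAt, Matrix.map_map, Matrix.map_map, show eval z ∘ C = id from funext fun _ => eval_C,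
      Matrix.map_id, Matrix.map_id, Matrix.mul_assoc, ← replicateCol_mulVec, det_unique]
    exact h

theorem irr_of_rank {U : Submodule ℂ (Fin r → ℂ)}
    (h : ∀ v ∈ U, v ≠ 0 → ∃ K : Submodule ℂ (Fin r → ℂ), K ≠ ⊤ ∧ ∀ u ∉ K, u ∈ U) :
    U = ⊥ ∨ U = ⊤ := by
  by_contra hn
  push Not at hn
  obtain ⟨v, hv, h0⟩ := U.exists_mem_ne_zero_of_ne_bot hn.1
  obtain ⟨K, h1, h2⟩ := h v hv h0
  obtain ⟨u, hu⟩ := Submodule.exists_forall_notMem_of_forall_ne_top ![K, U] (by
    intro i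
    fin_cases i
    exacts [h1, hn.2])
  exact hu 1 (h2 u (hu 0))

theorem mem_tr {Φ : Matrix (Fin r) (Fin r) ℂ[X]} :
    Φ ∈ LinearMap.ker (traceLinearMap (Fin r) ℂ[X] ℂ[X]) ↔ Φ.trace = 0 := Iff.rfl

theorem AdIrr.lieSub [Nontrivial (Fin r)] (h : AdIrr t A) :
    LieSub t A (LinearMap.ker (traceLinearMap (Fin r) ℂ[X] ℂ[X])) := by
  refine ⟨fun Φ hΦ => ?_, fun _ h => h, fun Φ _ Ψ _ => ?_, fun V hV hs => ?_, fun z _ U hU => ?_⟩
  · refine mem_tr.2 ?_
    rw [trace_sub, trace_sub, trace_mul_comm, sub_self, sub_zero, trace_smul,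
      ← AddMonoidHom.map_trace derivative, show Matrix.trace Φ = 0 from hΦ, map_zero, smul_zero]
  · refine mem_tr.2 ?_
    rw [trace_sub, trace_mul_comm, sub_self]
  · refine (h V hs).imp_left fun k => eq_bot_iff.2 fun Φ hΦ => ?_
    obtain ⟨c, rfl⟩ := k Φ hΦ
    have h1 : Matrix.trace (c • (1 : Matrix (Fin r) (Fin r) ℂ[X])) = 0 := hV hΦ
    rw [trace_smul, trace_one, smul_eq_mul, mul_eq_zero] at h1
    rw [h1.resolve_right (Nat.cast_ne_zero.2 Fintype.card_ne_zero), zero_smul]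
    exact Submodule.zero_mem _
  · refine irr_of_rank fun v hv h0 => ⟨ℂ ∙ v, fun e => ?_, fun u hu => ?_⟩
    · have h1 := finrank_span_singleton (K := ℂ) h0
      rw [e, finrank_top, Module.finrank_fintype_fun_eq_card] at h1
      exact absurd h1 Fintype.one_lt_card.ne'
    · obtain ⟨f, h1, h2, -⟩ := exists_form (u := u) (a := v) (b := v) (fun e => by
        obtain ⟨c, rfl⟩ := Submodule.mem_span_singleton.1 e
        exact hu (Submodule.mem_span_singleton.2 ⟨c⁻¹, by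
          rw [smul_smul, inv_mul_cancel₀ (left_ne_zero_of_smul h0), one_smul]⟩)) (fun e => by
        obtain ⟨c, rfl⟩ := Submodule.mem_span_singleton.1 e
        exact hu (Submodule.mem_span_singleton.2 ⟨c⁻¹, by
          rw [smul_smul, inv_mul_cancel₀ (left_ne_zero_of_smul h0), one_smul]⟩))
      have h3 := hU ((vecMulVec u f).map C) (by
        refine mem_tr.2 ?_
        rw [← AddMonoidHom.map_trace C, trace_vecMulVec, dotProduct_comm, h1, map_zero]) v hv
      rw [Matrix.map_map, show eval z ∘ C = id from funext fun _ => eval_C, Matrix.map_id,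
        vecMulVec_mulVec, op_smul_eq_smul] at h3
      exact (U.smul_mem_iff h2).1 h3

/-- The hypotheses for the special linear group give the block test. -/
theorem AdIrr.opp [Nontrivial (Fin r)] (h : AdIrr t A) {S : Finset (Fin n)}
    (hS : ∀ j ∈ S, Ram (A j)) : ∃ W, LieSub t A W ∧ ∃ Φ ∈ W,
      ∃ (U : Matrix (Fin r) (Fin (0 + 1)) ℂ[X]) (F : Matrix (Fin (0 + 1)) (Fin r) ℂ[X]),
        Φ ^ (0 + 2) = 0 ∧ Φ ^ (0 + 1) = U * F ∧ ∀ j ∈ S, OppAt U F (t j) (A j) := by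
  obtain ⟨u, f, h0, h1⟩ := exists_uf S
    (x := fun j => NormedSpace.exp ((2 * Real.pi * Complex.I : ℂ) • A j))
    fun j hj ⟨c, e⟩ => hS j hj c e
  obtain ⟨U, F, h2, h3, h4⟩ := opp_const h0
  refine ⟨_, h.lieSub, _, ?_, U, F, h2, (pow_one _).trans h3,
    fun j hj => h4 _ _ (h1 j hj)⟩
  refine mem_tr.2 ?_
  rw [← AddMonoidHom.map_trace C, trace_vecMulVec, dotProduct_comm, h0, map_zero]

end Pool.Agent.GR.OP
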