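import Pool.Agent.Lib.MP_aa40d3_nt.OL.Stmt
import Pool.Agent.Lib.MP_aa40d3_nt.OP.An
import Pool.Agent.Lib.MP_aa40d3_nt.GC.FibC
import Pool.Agent.Lib.MP_aa40d3_nt.GD.Fld

/-! The fibres of a stable module. -/

open Polynomial Matrix Set Filter Topology
open scoped Matrix.Norms.Operator

namespace Pool.Agent.GR.OP

open NP GC

variable {n N : ℕ} {t : Fin n → ℂ} {A : Fin n → Mat N}
  {W : Submodule ℂ[X] (Matrix (Fin N) (Fin N) ℂ[X])}

/-- The values at `x`. -/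
def fibS (W : Submodule ℂ[X] (Matrix (Fin N) (Fin N) ℂ[X])) (x : ℂ) : Submodule ℂ (Mat N) where
  carrier := {z | ∃ Φ ∈ W, Φ.map (eval x) = z}
  add_mem' := by
    rintro _ _ ⟨Φ, h, rfl⟩ ⟨Ψ, h', rfl⟩
    exact ⟨Φ + Ψ, W.add_mem h h', Matrix.map_add _ (fun _ _ => eval_add) _ _⟩
  zero_mem' := ⟨0, W.zero_mem, Matrix.map_zero _ eval_zero⟩
  smul_mem' := by
    rintro c _ ⟨Φ, h, rfl⟩
    exact ⟨C c • Φ, W.smul_mem _ h, by
      ext a b
      simp⟩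

theorem fibS_T [NeZero N] (hW : Stab t A W) {a c : ℂ} (h : ∀ i, t i ∉ segment ℝ a c) :
    ∀ z ∈ fibS W c, ∃ z' ∈ fibS W a, z * T t A a c = T t A a c * z' := by
  obtain ⟨V, hVo, hVc, haV, hcV, hV⟩ := fibb_nhd h
  have hY : ∀ x ∈ V, (∀ i, x ≠ t i) ∧ IsUnit (T t A a x) ∧
      HasDerivAt (fun y => T t A a y) (sys t A x * T t A a x) x := fun x hx =>
    ⟨fun i hi => hV i (hi ▸ hx), isUnit_Tr _,
      hasDerivAt_T A fun i hi => hV i (hVc.segment_subset haV hx hi)⟩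
  rintro _ ⟨Φ₀, hΦ₀, rfl⟩
  refine ⟨Ring.inverse (T t A a c) * (Φ₀.map (eval c) * T t A a c), ?_,
    (Ring.mul_inverse_cancel_left _ _ (hY c hcV).2.1).symm⟩
  by_contra hn
  obtain ⟨f, hf, hf0⟩ := Submodule.exists_dual_map_eq_bot_of_notMem hn inferInstance
  let u : Matrix (Fin N) (Fin N) ℂ[X] → ℂ → ℂ := fun Φ y =>
    f (Ring.inverse (T t A a y) * (Φ.map (eval y) * T t A a y))
  have hder : ∀ Φ, ∀ x ∈ V, ∃ w : ℂ, HasDerivAt (u Φ) w x ∧
      u (dl t • Φ.map derivative - (pm t A * Φ - Φ * pm t A)) x = (dl t).eval x * w := by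
    intro Φ x hx
    obtain ⟨z', h1, h2⟩ := fibb_deriv hVo hY Φ hx
    refine ⟨f z', (LinearMap.toContinuousLinearMap f).hasFDerivAt.comp_hasDerivAt x h1, ?_⟩
    simp only [u]
    rw [h2, map_smul, smul_eq_mul]
  have han : ∀ Φ, AnalyticOnNhd ℂ (u Φ) V := fun Φ =>
    DifferentiableOn.analyticOnNhd (fun x hx => by
      obtain ⟨w, hw, -⟩ := hder Φ x hx
      exact hw.differentiableAt.differentiableWithinAt) hVo
  have hδ : AnalyticAt ℂ (fun x => (dl t).eval x) a :=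
    (Polynomial.differentiable (dl t)).analyticAt a
  have hz := fib_zero (F := {v | ∃ Φ ∈ W, v = u Φ}) hδ (mono_dl_ne t (hY a haV).1) (by
    rintro _ ⟨Φ, hΦ, rfl⟩
    refine ⟨han Φ a haV, ?_, _, ⟨_, hW Φ hΦ, rfl⟩, ?_⟩
    · simp only [u]
      rw [T_self, Ring.inverse_one, one_mul, mul_one, ← Submodule.mem_bot ℂ, ← hf0]
      exact Submodule.mem_map_of_mem ⟨Φ, hΦ, rfl⟩
    · filter_upwards [hVo.mem_nhds haV] with x hx
      obtain ⟨w, hw, e⟩ := hder Φ x hx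
      rw [e, hw.deriv]) (u Φ₀) ⟨Φ₀, hΦ₀, rfl⟩
  exact hf ((han Φ₀).eqOn_zero_of_preconnected_of_eventuallyEq_zero hVc.isPreconnected haV hz hcV)

/-- The unit `u` carries the fibre at `a` to the fibre at `c`. -/
def Car (W : Submodule ℂ[X] (Matrix (Fin N) (Fin N) ℂ[X])) (u : (Mat N)ˣ) (a c : ℂ) : Prop :=
  ∀ z, z ∈ fibS W a ↔ u.val * z * (u⁻¹).val ∈ fibS W c

theorem car_one (a : ℂ) : Car W 1 a a := fun z => by
  rw [inv_one, Units.val_one, one_mul, mul_one]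

theorem car_mul {u v : (Mat N)ˣ} {a b c : ℂ} (hv : Car W v b c) (hu : Car W u a b) :
    Car W (v * u) a c := fun z => by
  rw [hu z, hv, _root_.mul_inv_rev, Units.val_mul, Units.val_mul]
  simp only [mul_assoc]

theorem car_inv {u : (Mat N)ˣ} {a c : ℂ} (hu : Car W u a c) : Car W u⁻¹ c a := fun z => by
  rw [hu, inv_inv, ← mul_assoc, ← mul_assoc, Units.mul_inv, one_mul, mul_assoc, Units.mul_inv,
    mul_one]

theorem car_TU [NeZero N] (hW : Stab t A W) {a c : ℂ} (h : ∀ i, t i ∉ segment ℝ a c) :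
    Car W (TU t A a c) a c := by
  intro z
  constructor
  · intro hz
    obtain ⟨z', hz', e⟩ := fibS_T hW (a := c) (c := a)
      (fun i hi => h i (segment_symm ℝ c a ▸ hi)) z hz
    have h1 : T t A c a * T t A a c = 1 := by
      rw [T_tri A (convex_segment a c) h (left_mem_segment ℝ a c) (right_mem_segment ℝ a c)
        (left_mem_segment ℝ a c), T_self]
    have h2 : ((TU t A a c)⁻¹).val = T t A c a := Units.inv_eq_of_mul_eq_one_left h1
    rw [mul_assoc, h2, e, ← h2, ← mul_assoc, Units.mul_inv, one_mul]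
    exact hz'
  · intro hz
    obtain ⟨z', hz', e⟩ := fibS_T hW h _ hz
    rw [← val_TU, mul_assoc, Units.inv_mul, mul_one, Units.mul_right_inj] at e
    rw [e]
    exact hz'

theorem car_Vp [NeZero N] (hW : Stab t A W) {H σ : ℝ} (hb : InBox (pp t) H)
    (hσ : ∀ i, (t i).re ≠ σ) : Car W (Vp (TT t A) H σ) (cpt (-H, -H)) (cpt (-H, H)) := by
  have h1 : Car W (TU t A (cpt (-H, -H)) (cpt (σ, -H))) _ _ :=
    car_TU hW fun i => fibc_seg_im (y := -H) rfl rfl (abs_lt.1 (hb i).2).1.ne'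
  have h2 : Car W (TU t A (cpt (σ, -H)) (cpt (σ, H))) _ _ :=
    car_TU hW fun i => fibc_seg_re (y := σ) rfl rfl (hσ i)
  have h3 : Car W (TU t A (cpt (σ, H)) (cpt (-H, H))) _ _ :=
    car_TU hW fun i => fibc_seg_im (y := H) rfl rfl (abs_lt.1 (hb i).2).2.ne
  exact car_mul (car_mul h3 h2) h1

theorem car_vt [NeZero N] (hW : Stab t A W) {H : ℝ} (hb : InBox (pp t) H) {γ : (Mat N)ˣ}
    (hγ : γ ∈ Subgroup.closure (Set.range (vt (TT t A) (pp t) H))) :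
    Car W γ (cpt (-H, -H)) (cpt (-H, -H)) := by
  induction hγ using Subgroup.closure_induction with
  | mem x hx =>
    obtain ⟨i, rfl⟩ := hx
    unfold vt
    split_ifs with h
    · obtain ⟨h1, h2, h3⟩ := h.choose_spec
      refine car_mul (car_inv (car_Vp hW hb fun j e => ?_)) (car_Vp hW hb fun j e => ?_)
      · by_cases hj : j = i
        · subst hj
          exact h1.ne' e
        · exact h3 j hj ⟨e.ge, e.le.trans (h1.trans h2).le⟩
      · by_cases hj : j = i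
        · subst hj
          exact h2.ne e
        · exact h3 j hj ⟨(h1.trans h2).le.trans e.ge, e.le⟩
    · exact car_one _
  | one => exact car_one _
  | mul x y _ _ hx hy => exact car_mul hx hy
  | inv x _ hx => exact car_inv hx

theorem fibS_sat [NeZero N] {U : Set ℂ} (hU : U.Infinite) {x₀ : ℂ} {Y : ℂ → Mat N}
    (hY : ∀ x ∈ U, (Y x).det ≠ 0) (h : W ≤ primW U Y (fibS W x₀))
    {Φ : Matrix (Fin N) (Fin N) ℂ[X]} (hΦ : Φ ∈ primW U Y (fibS W x₀)) :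
    ∃ q : ℂ[X], q ≠ 0 ∧ q • Φ ∈ W := by
  refine fld_sat h (le_antisymm ?_ (Submodule.finrank_mono h)) hΦ
  rw [MP.fact_rank (x₀ := x₀) hU hY (Z := fibS W x₀) fun z₀ ⟨Φ, hΦ, e⟩ =>
    ⟨Φ, h hΦ, 1, one_ne_zero, by rw [one_smul, e]⟩]
  let b := Module.finBasis ℂ (fibS W x₀)
  choose Φ hΦ e using fun i => (b i).2
  have h1 : LinearIndependent ℂ fun i => (Φ i).map (eval x₀) := by
    rw [_root_.funext e]
    exact b.linearIndependent.map' (fibS W x₀).subtype (Submodule.ker_subtype _)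
  have h2 : LinearIndependent ℂ[X] fun i => (⟨Φ i, hΦ i⟩ : W) :=
    LinearIndependent.of_comp W.subtype (MP.factb_up h1)
  have h3 := h2.fintype_card_le_finrank
  rwa [Fintype.card_fin] at h3

theorem fibS_min [NeZero N] (hW : LieSub t A W) {g : Fin n → (Mat N)ˣ} (hζ : ∀ a, QU (g a).val)
    {U : Set ℂ} (hU : IsOpen U) {x₀ : ℂ} (hx₀ : x₀ ∈ U) {Y : ℂ → Mat N} (hY0 : Y x₀ = 1)
    (hY : ∀ x ∈ U, (∀ i, x ≠ t i) ∧ (Y x).det ≠ 0 ∧ HasDerivAt Y (sys t A x * Y x) x)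
    (he : ExtProp t g U Y) (h : W ≤ primW U Y (fibS W x₀)) {Z : Submodule ℂ (Mat N)}
    (hZ : Z ≤ fibS W x₀) (hi : MP.InvS (Subgroup.closure (Set.range g)) Z) :
    Z = ⊥ ∨ Z = fibS W x₀ := by
  rw [or_iff_not_imp_left]
  intro h0
  obtain ⟨z₀, hz₀, h1⟩ := Submodule.exists_mem_ne_zero_of_ne_bot h0
  obtain ⟨Φ, hΦ, c, hc, e⟩ := fact_ontoQ hζ hx₀ (hY _ hx₀).1 hY0 he hi hz₀
  have hΦ0 : Φ ≠ 0 := by
    rintro rfl
    rw [Matrix.map_zero _ eval_zero] at e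
    exact h1 ((smul_eq_zero.1 e.symm).resolve_left hc)
  obtain ⟨q, hq, hqΦ⟩ := fibS_sat (infinite_of_mem_nhds _ (hU.mem_nhds hx₀))
    (fun x hx => (hY x hx).2.1) h (Φ := Φ) fun x hx => by
      obtain ⟨z, hz, e'⟩ := hΦ x hx
      exact ⟨z, hZ hz, e'⟩
  rcases hW.2.2.2.1 (W ⊓ primW U Y Z) inf_le_left
    (fun Ψ hΨ => ⟨hW.1 Ψ hΨ.1, primt_stable hU hY Z Ψ hΨ.2⟩) with k | k
  · exact absurd (k.le ⟨hqΦ, Submodule.smul_mem _ q hΦ⟩) (smul_ne_zero hq hΦ0)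
  · refine le_antisymm hZ ?_
    rintro _ ⟨Ψ, hΨ, rfl⟩
    obtain ⟨p, hp, h2⟩ := k Ψ hΨ
    obtain ⟨w, hw, e'⟩ := primW_sat hU hY Z hp h2.2 x₀ hx₀
    rw [hY0, mul_one, one_mul] at e'
    rwa [e']

end Pool.Agent.GR.OP
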