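import Pool.Agent.Lib.MP_aa40d3_nt.OP.Lift
import Pool.Agent.Lib.MP_aa40d3_nt.OP.Grp2
import Pool.Agent.Lib.MP_aa40d3_nt.OL.Defs

/-! Reduction to determinant one for an invariant Lie algebra. -/

open Matrix

namespace Pool.Agent.GR.OP

open NP GC FB

variable {n r E : ℕ}

theorem Rel.ne (hE : 0 < E) {a b : GLr r} (h : Rel E a b) : ∃ c : ℂ, c ≠ 0 ∧ b.val = c • a.val := by
  obtain ⟨c, h1, h2⟩ := h
  exact ⟨c, fun e => by simp [e, hE.ne'] at h1, h2⟩

theorem Rel.irW (hE : 0 < E) {g u : Fin n → GLr r} (h : ∀ a, Rel E (g a) (u a))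
    {W : Submodule ℂ (Mt r)} (hW : IrW (incl (Subgroup.closure (Set.range g))) W) :
    IrW (incl (Subgroup.closure (Set.range u))) W := by
  refine ⟨fun γ z hz => ?_, fun U hU k => hW.2 U hU fun γ z hz => ?_⟩
  · obtain ⟨γ', k1, k2⟩ := Rel.closure hE (fun a => (h a).symm hE) γ γ.2
    have k3 := hW.1 ⟨γ', k1⟩ z hz
    rw [AdR_apply] at k3 ⊢
    exact (k2.conj hE z) ▸ k3
  · obtain ⟨γ', k1, k2⟩ := Rel.closure hE h γ γ.2
    have k3 := k ⟨γ', k1⟩ z hz
    rw [AdR_apply] at k3 ⊢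
    exact (k2.conj hE z) ▸ k3

theorem group_typ (r : ℕ) [NeZero r] : ∃ k : ℕ, ∀ (n : ℕ) (Mov : Finset (Fin n))
    (L0 : List (Fin n)) (g : Fin n → GLr r) (o : Fin n) (W : Submodule ℂ (Mt r)), L0.Nodup →
    (∀ a, a ∈ L0) → (∀ a, QU (g a).val) → IrrT g →
    (∀ (G : Type) [Group G] (σ : G →* Mt r), IrW σ W → IrrR σ → Typ2 σ W) →
    IrW (incl (Subgroup.closure (Set.range g))) W →
    (∀ a ∈ Mov, ∀ c ∈ Subgroup.closure (Set.range g), ∀ c' ∈ Subgroup.closure (Set.range g),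
      Opp W (c * g o * c⁻¹).val (c' * g a * c'⁻¹).val) → o ∉ Mov → k ≤ Mov.card →
    PairH Mo (fun x => QU x.1.val) (L0.map (mkd {o} g)) →
    Finite (Subgroup.closure (Set.range g)) := by
  obtain ⟨k, hk⟩ := finite_op2 r
  refine ⟨k, fun n Mov L0 g o W h0 hall hq hI hT hW hO hoM hc hp => ?_⟩
  obtain ⟨E, u, hE, hu⟩ := exists_rel hq
  refine Rel.finite hE (fun a => (hu a).2) ?_
  set Γ := Subgroup.closure (Set.range u) with hΓ
  let g' : Fin n → Γ := fun a => ⟨u a, Subgroup.subset_closure ⟨a, rfl⟩⟩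
  have hg : Subgroup.closure (Set.range g') = ⊤ := by
    apply Subgroup.map_injective Γ.subtype_injective
    rw [MonoidHom.map_closure, ← Set.range_comp, ← MonoidHom.range_eq_map, Subgroup.range_subtype]
    rfl
  have ho : ∀ x y, IsConj (g' o) x → (∃ a ∈ Mov, IsConj (g' a) y) →
      Opp W (incl Γ x) (incl Γ y) := by
    rintro x y hx ⟨a, ha, hy⟩
    obtain ⟨c, rfl⟩ := isConj_iff.1 hx
    obtain ⟨c', rfl⟩ := isConj_iff.1 hy
    obtain ⟨d, k1, k2⟩ := Rel.closure hE (fun a => (hu a).2.symm hE) c c.2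
    obtain ⟨d', k3, k4⟩ := Rel.closure hE (fun a => (hu a).2.symm hE) c' c'.2
    obtain ⟨p, p0, e1⟩ := (((k2.symm hE).mul (hu o).2).mul ((k2.symm hE).inv hE)).ne hE
    obtain ⟨q, q0, e2⟩ := (((k4.symm hE).mul (hu a).2).mul ((k4.symm hE).inv hE)).ne hE
    have k5 := (hO a ha d k1 d' k3).smul p0 q0
    rwa [← e1, ← e2] at k5
  refine hk n Mov L0 Γ g' (incl Γ) W (fun y => ∃ a ∈ Mov, IsConj (g' a) y) o h0 hall hg
    (incl_inj Γ) (fun x => ?_)
    (hT Γ _ (Rel.irW hE (fun a => (hu a).2) hW) fun U hU => hI U fun a v hv => ?_)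
    (fun γ x ⟨a, ha, hx⟩ => ⟨a, ha, hx.trans (isConj_iff.2 ⟨γ, rfl⟩)⟩)
    (fun x hx => (ho _ x (IsConj.refl _) hx).not_scl.2) (fun a ha => ⟨a, ha, IsConj.refl _⟩) hoM hc
    (fun x y hx hy => (ho x y hx hy).test) ?_
  · have hx : x ∈ Subgroup.closure (Set.range g') := hg ▸ Subgroup.mem_top x
    induction hx using Subgroup.closure_induction with
    | mem y hy =>
      obtain ⟨a, rfl⟩ := hy
      exact (hu a).1
    | one => rw [map_one, det_one]
    | mul y z _ _ hy hz => rw [map_mul, det_mul, hy, hz, one_mul]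
    | inv y _ hy =>
      have h3 := congrArg det (rep_mul_inv (incl Γ) y)
      rwa [det_mul, hy, one_mul, det_one] at h3
  · obtain ⟨c, -, e⟩ := (hu a).2.symm hE
    rw [e, smul_mulVec]
    exact U.smul_mem c (hU (g' a) v hv)
  · refine PairH.of_map (P := Mo) (Q := fun x => QU x.1.val)
      (Γ.subtype.prodMap (MonoidHom.id Mk)) ?_
    rw [List.map_map]
    exact Rel.pair hE (fun a => (hu a).2) hp

end Pool.Agent.GR.OP
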