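import Pool.Agent.Lib.MP_aa40d3_nt.NP.StmtP

/-! Definitions used in the statement: bundles of Lie algebras and opposite position. -/

open Polynomial Matrix

namespace Pool.Agent.GR.OP

variable {n r s : ℕ}

/-- A module of matrices that is stable under `Φ ↦ Δ Φ' - [Δ A, Φ]`. -/
def Stab (t : Fin n → ℂ) (A : Fin n → Matrix (Fin r) (Fin r) ℂ)
    (W : Submodule ℂ[X] (Matrix (Fin r) (Fin r) ℂ[X])) : Prop :=
  ∀ Φ ∈ W, dl t • Φ.map derivative - (pm t A * Φ - Φ * pm t A) ∈ W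

/-- A stable module of traceless matrices that is closed under commutators; a stable submodule is
zero or contains a non-zero multiple of every member; the values at a point that is not singular
have no proper invariant subspace. -/
def LieSub (t : Fin n → ℂ) (A : Fin n → Matrix (Fin r) (Fin r) ℂ)
    (W : Submodule ℂ[X] (Matrix (Fin r) (Fin r) ℂ[X])) : Prop :=
  Stab t A W ∧ (∀ Φ ∈ W, Φ.trace = 0) ∧ (∀ Φ ∈ W, ∀ Ψ ∈ W, Φ * Ψ - Ψ * Φ ∈ W) ∧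
    (∀ V ≤ W, Stab t A V → V = ⊥ ∨ ∀ Φ ∈ W, ∃ q : ℂ[X], q ≠ 0 ∧ q • Φ ∈ V) ∧
    ∀ z : ℂ, (∀ i, z ≠ t i) → ∀ U : Submodule ℂ (Fin r → ℂ),
      (∀ Φ ∈ W, ∀ v ∈ U, Φ.map (eval z) *ᵥ v ∈ U) → U = ⊥ ∨ U = ⊤

/-- The block `F(z) exp (2 π i B) U(z)` is invertible. -/
def OppAt (U : Matrix (Fin r) (Fin s) ℂ[X]) (F : Matrix (Fin s) (Fin r) ℂ[X]) (z : ℂ)
    (B : Matrix (Fin r) (Fin r) ℂ) : Prop :=
  (F.map (eval z) * NormedSpace.exp ((2 * Real.pi * Complex.I : ℂ) • B) * U.map (eval z)).det ≠ 0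

end Pool.Agent.GR.OP
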